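import Pool.Agent.X184.SS.Stm2

set_option autoImplicit false

namespace Pool.Agent.X322.SP

open Finset Pool.Agent.X184.SS

lemma cover (n : ℕ) (F : Finset ℕ) (hF : F ∈ Sch (n+1)) (z : ℕ →₀ ℝ)
    (ε : ℝ) (he : 0 ≤ ε) (h : ∀ G ∈ Sch n, ∑ j ∈ G, z j ≤ ε) (a : ℕ) (ha : a ∈ F) :
    ∑ j ∈ F, z j ≤ (a+1)*ε := by
  obtain ⟨k, G, hG, hord, hFG, hk⟩ := hF
  have hk' : k ≤ a + 1 := hk a ha
  rw [hFG, Finset.sum_biUnion]
  · calc ∑ i, ∑ j ∈ G i, z j ≤ ∑ _i : Fin k, ε := Finset.sum_le_sum (fun i _ => h _ (hG i).2)
      _ = k * ε := by simp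
      _ ≤ (a+1)*ε := mul_le_mul_of_nonneg_right (by exact_mod_cast hk') he
  · intro i _ j _ hij
    rw [Function.onFun, Finset.disjoint_left]
    intro x hx hx'
    rcases lt_or_gt_of_ne hij with h1 | h1
    · exact lt_irrefl _ (hord i j h1 x hx x hx')
    · exact lt_irrefl _ (hord j i h1 x hx' x hx)

lemma geo (N : ℕ) : ∑ i ∈ range N, (1/2:ℝ)^(i+1) = 1 - (1/2)^N := by
  induction N with
  | zero => simp
  | succ N ih => rw [Finset.sum_range_succ, ih, pow_succ]; ring

theorem t_SYS : S_SYS := by
  classical
  intro _ J n N hN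
  have hj := fun (i v : ℕ) => J n N hN (1/(2^(i+1)*((v:ℝ)+1))) (by positivity) (i+1) (v+1)
  choose Z z1 z2 z3 z4 z5 z6 z7 using hj
  obtain ⟨V, hV1⟩ : ∃ V : ℕ → ℕ, ∀ i, V (i+1) =
      max (V i) (((range (i+1)).biUnion (fun l => (Z i (V i) l).support)).sup id) :=
    ⟨fun i => Nat.rec 0 (fun i v =>
      max v (((range (i+1)).biUnion (fun l => (Z i v l).support)).sup id)) i, fun i => rfl⟩
  have hVle : ∀ i, V i ≤ V (i+1) := fun i => by rw [hV1]; exact le_max_left _ _
  have hVm : Monotone V := monotone_nat_of_le_succ hVle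
  have hsu : ∀ i l, ∀ j ∈ (Z i (V i) l).support, V i + 1 ≤ j ∧ j ≤ V (i+1) := by
    intro i l j hjs
    refine ⟨(z4 i (V i) l j hjs).2, ?_⟩
    by_cases hl : l < i+1
    · rw [hV1]
      refine le_trans ?_ (le_max_right _ _)
      have : j ∈ (range (i+1)).biUnion (fun l => (Z i (V i) l).support) :=
        Finset.mem_biUnion.mpr ⟨l, Finset.mem_range.mpr hl, hjs⟩
      exact Finset.le_sup (f := id) this
    · rw [z3 i (V i) l (by omega)] at hjs
      simp at hjs
  refine ⟨fun i l => Z i (V i) l, ?_⟩
  refine ⟨fun i l j => z1 i (V i) l j, fun i l hl => z2 i (V i) l (by omega),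
    fun i l hl => z3 i (V i) l (by omega), fun i l j hjs => (z4 i (V i) l j hjs).1,
    ?_, fun i => z6 i (V i), ?_⟩
  · intro i l i' l' hne
    rcases lt_trichotomy i i' with h | h | h
    · rw [Finset.disjoint_left]
      intro x hx hx'
      have h1 := (hsu i l x hx).2
      have h2 := (hsu i' l' x hx').1
      have h3 := hVm (show i + 1 ≤ i' by omega)
      omega
    · subst h
      exact z5 i (V i) l l' (fun hl => hne (by rw [hl]))
    · rw [Finset.disjoint_left]
      intro x hx hx'
      have h1 := (hsu i' l' x hx').2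
      have h2 := (hsu i l x hx).1
      have h3 := hVm (show i' + 1 ≤ i by omega)
      omega
  · intro F hF I s
    rcases F.eq_empty_or_nonempty with h0 | hne
    · rw [h0]; simp
    · obtain ⟨a, haF, hmin⟩ : ∃ a : ℕ, a ∈ F ∧ ∀ j ∈ F, a ≤ j :=
        ⟨F.min' hne, F.min'_mem hne, fun j hj => F.min'_le j hj⟩
      have hone : ∀ i : ℕ, ∑ j ∈ F, Z i (V i) (s i) j ≤
          (1/2:ℝ)^(i+1) + (if V i < a ∧ a ≤ V (i+1) then (1:ℝ) else 0) := by
        intro i
        by_cases h1 : a ≤ V i
        · rw [if_neg (show ¬ (V i < a ∧ a ≤ V (i+1)) by omega), add_zero]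
          refine (cover n F hF _ _ (by positivity) (z7 i (V i) (s i)) a haF).trans ?_
          have h2 : (a:ℝ) + 1 ≤ (V i : ℝ) + 1 := by exact_mod_cast Nat.succ_le_succ h1
          have h3 : 0 < (V i : ℝ) + 1 := by positivity
          calc ((a:ℝ)+1) * (1/(2^(i+1)*((V i:ℝ)+1)))
              ≤ ((V i:ℝ)+1) * (1/(2^(i+1)*((V i:ℝ)+1))) :=
                mul_le_mul_of_nonneg_right h2 (by positivity)
            _ = (1/2:ℝ)^(i+1) := by
                rw [one_div_pow]; field_simp
        · by_cases h2 : a ≤ V (i+1)
          · rw [if_pos (show V i < a ∧ a ≤ V (i+1) from ⟨by omega, h2⟩)]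
            have h3 : ∑ j ∈ F, Z i (V i) (s i) j ≤
                ∑ j ∈ (Z i (V i) (s i)).support, Z i (V i) (s i) j := by
              calc ∑ j ∈ F, Z i (V i) (s i) j
                  ≤ ∑ j ∈ F ∪ (Z i (V i) (s i)).support, Z i (V i) (s i) j :=
                    Finset.sum_le_sum_of_subset_of_nonneg Finset.subset_union_left
                      (fun j _ _ => z1 i (V i) (s i) j)
                _ = ∑ j ∈ (Z i (V i) (s i)).support, Z i (V i) (s i) j := by
                    symm
                    apply Finset.sum_subset Finset.subset_union_right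
                    intro j _ hj
                    exact Finsupp.notMem_support_iff.mp hj
            have h4 : ∑ j ∈ (Z i (V i) (s i)).support, Z i (V i) (s i) j ≤ 1 := by
              by_cases h5 : s i < i + 1
              · rw [z2 i (V i) (s i) h5]
              · rw [z3 i (V i) (s i) (by omega)]; simp
            have h5 : (0:ℝ) ≤ (1/2)^(i+1) := by positivity
            linarith
          · rw [if_neg (show ¬ (V i < a ∧ a ≤ V (i+1)) by omega), add_zero]
            have h3 : ∑ j ∈ F, Z i (V i) (s i) j = 0 := by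
              refine Finset.sum_eq_zero (fun j hj => ?_)
              by_contra hc
              have h4 := (hsu i (s i) j (Finsupp.mem_support_iff.mpr hc)).2
              have h5 := hmin j hj
              omega
            rw [h3]; positivity
      calc ∑ i ∈ I, ∑ j ∈ F, Z i (V i) (s i) j
          ≤ ∑ i ∈ I, ((1/2:ℝ)^(i+1) + (if V i < a ∧ a ≤ V (i+1) then (1:ℝ) else 0)) :=
            Finset.sum_le_sum (fun i _ => hone i)
        _ = ∑ i ∈ I, (1/2:ℝ)^(i+1) + ∑ i ∈ I, (if V i < a ∧ a ≤ V (i+1) then (1:ℝ) else 0) :=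
            Finset.sum_add_distrib
        _ ≤ 1 + 1 := by
            apply add_le_add
            · calc ∑ i ∈ I, (1/2:ℝ)^(i+1) ≤ ∑ i ∈ range (I.sup id + 1), (1/2:ℝ)^(i+1) := by
                    apply Finset.sum_le_sum_of_subset_of_nonneg
                    · intro i hi
                      exact Finset.mem_range.mpr (Nat.lt_succ_of_le (Finset.le_sup (f := id) hi))
                    · intro i _ _; positivity
                _ = 1 - (1/2)^(I.sup id + 1) := geo _
                _ ≤ 1 := by
                    have : (0:ℝ) ≤ (1/2)^(I.sup id + 1) := by positivity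
                    linarith
            · rw [Finset.sum_ite]
              simp only [Finset.sum_const, Finset.sum_const_zero, add_zero, nsmul_eq_mul, mul_one]
              have : (I.filter (fun i => V i < a ∧ a ≤ V (i+1))).card ≤ 1 := by
                rw [Finset.card_le_one]
                intro i hi i' hi'
                rw [Finset.mem_filter] at hi hi'
                by_contra hne
                rcases lt_or_gt_of_ne hne with h | h
                · have := hVm (show i + 1 ≤ i' by omega)
                  omega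
                · have := hVm (show i' + 1 ≤ i by omega)
                  omega
              exact_mod_cast this
        _ = 2 := by norm_num

end Pool.Agent.X322.SP
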